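import Pool.Agent.Run7.h45.Nav

/-!
# Navarro's blockwise conjecture and perfect groups with alternating composition factors

For a subgroup `H` of the alternating group `A_n` let `Z(A_n/H)` be the group of the functions
`A_n/H → ℤ/q` with sum `0`, and let `Z(A_n/H) ⋊ A_n` be its extension by `A_n`, which permutes the
cosets. `IsBlock`, `IsInvBlock`, `numIBr` are the definitions of `Pool/Agent/Y63/NV`, and `navarroSum`,
`Navarro` those of `CommutatorCongruence.lean`: the two sides of Navarro's equality are `numIBr G B` and
`navarroSum p red G B`.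

Proof. Let `G` be a finite group, embedded into `A_n` as a subgroup `H` of index at least `3`. The
evaluation at the trivial coset is a character of `Z(A_n/H)` with stabiliser `H`. Clifford theory maps
the blocks of `G` to blocks of `Z(A_n/H) ⋊ A_n` with the same numbers of irreducible Brauer characters
and of weights. Then one uses `CommutatorCongruence`, as in `UniversalFamily`.
-/

set_option autoImplicit false

open scoped Classical

namespace Pool.Agent.Results.MP_0c8ca5_al.PerfectGroups

open Pool.Agent.Y63.NV
open Pool.Agent.Results.MP_0c8ca5_al.CommutatorCongruence (navarroSum Navarro)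
open Run7.h45 (ZSGrp)

/-- **Navarro's blockwise conjecture and perfect groups.** Let `p` be a prime and `q ≥ 2` an integer not
divisible by `p`. (1) For `n ≥ 5` and all subgroups `H ≤ A_n` the group `Z(A_n/H) ⋊ A_n` is perfect.
(2) Let `N` be an infinite set of natural numbers. Navarro's equality holds for all finite groups `Γ`,
all normal subgroups `G` with `Γ/G` a `p`-group and all `Γ`-invariant blocks of `G` if and only if its
two sides are congruent modulo `p` for the blocks of `G = Γ = Z(A_n/H) ⋊ A_n`, `5 ≤ n ∈ N`, `H ≤ A_n`. -/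
theorem result (p : ℕ) [Fact p.Prime] (F : Type) [Field F] [IsAlgClosed F] [CharP F p]
    (red : integralClosure ℤ ℂ →+* F) (q : ℕ) (hq : 2 ≤ q) (hpq : ¬ p ∣ q) :
    (∀ n : ℕ, 5 ≤ n → ∀ H : Subgroup (alternatingGroup (Fin n)),
      commutator (ZSGrp q (alternatingGroup (Fin n)) H) = ⊤) ∧
    ∀ N : Set ℕ, N.Infinite →
      (Navarro p red (fun _ _ => True) (fun _ _ _ => True) (fun a b => a = b) ↔
        ∀ n ∈ N, 5 ≤ n → ∀ (H : Subgroup (alternatingGroup (Fin n)))
          (B : ((⊤ : Subgroup (ZSGrp q (alternatingGroup (Fin n)) H)) → F) → F), IsBlock B →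
            IsInvBlock ⊤ B → numIBr (⊤ : Subgroup (ZSGrp q (alternatingGroup (Fin n)) H)) B ≡
              navarroSum p red (⊤ : Subgroup (ZSGrp q (alternatingGroup (Fin n)) H)) B
                [MOD p]) := by
  have : NeZero q := ⟨by omega⟩
  refine ⟨fun n hn H => Run7.h45.perfect_alt hn H, fun N hN => ⟨?_, ?_⟩⟩
  · intro h n _ _ H B hB hI
    rw [h (ZSGrp q (alternatingGroup (Fin n)) H) ⊤ trivial (pgroup_top p _) trivial B hB hI]
  · intro h
    rw [Run7.h45.nav_iff_bawc, Run7.h45.bawc_iff_alt red hq hpq N hN]
    intro n hn h5 H B hB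
    have h3 := h n hn h5 H (up B) (up_block hB) (up_inv B)
    rw [CommutatorCongruence.sum_up p red hB, numIBr_eq] at h3
    exact h3

end Pool.Agent.Results.MP_0c8ca5_al.PerfectGroups
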