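import Pool.Agent.Run7.h45.Nav
import Pool.Agent.Run7.h45.PV5

/-!
# Navarro's blockwise conjecture and perfect primitive permutation groups

`IsBlock`, `IsInvBlock`, `numIBr` are the definitions of `Pool/Agent/Y63/NV`, and `navarroSum`, `Navarro`
those of `CommutatorCongruence.lean`: the two sides of Navarro's equality are `numIBr G B` and
`navarroSum p red G B`.

Proof. Let `q` be `2` or a prime `≥ 7`, `q ≠ p`. There are a finite `q`-group `W` and a cyclic group
`E ≤ Aut W` such that `W` is an irreducible `E`-module and the characters of `W` contain three regular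
`E`-orbits: `W = F_q` and `E = {±1}` for `q ≥ 7`, `W = F_16` and `|E| = 5` for `q = 2`. Let `G` be a
finite group, embed it into an alternating group `K = A_n` with `n ≥ 5`, let `E₀` be the group of the
functions `K → E` with product `1`, and `L = E₀ ⋊ K`, `K` acting on itself by left translations. `L`
acts on `V = W ^ K`. The group `H = V ⋊ L` is perfect, `V` is its unique minimal normal subgroup, and
`L` is a maximal subgroup with trivial core. There is a character of `V` with stabiliser isomorphic to
`G` in `L`. Clifford theory maps the blocks of `G` to blocks of `H` with the same numbers of irreducible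
Brauer characters and of weights. Then one uses `CommutatorCongruence`, as in `UniversalFamily`.
-/

set_option autoImplicit false

open scoped Classical

namespace Pool.Agent.Results.MP_0c8ca5_al.PrimitiveGroups

open Pool.Agent.Y63.NV
open Pool.Agent.Results.MP_0c8ca5_al.CommutatorCongruence (navarroSum Navarro)
open Run7.h45

/-- `H` is perfect and has a maximal subgroup `M` with trivial core and an abelian normal subgroup `V`
of order a power of `q` which is a complement of `M`. For finite `H` this means that `H` is isomorphic
to a perfect primitive permutation group of affine type whose degree is a power of `q`. -/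
def PerfectPrimitive (q : ℕ) (H : Type) [Group H] : Prop :=
  commutator H = ⊤ ∧ ∃ V M : Subgroup H, IsCoatom M ∧ M.normalCore = ⊥ ∧ V.Normal ∧
    (∀ x ∈ V, ∀ y ∈ V, x * y = y * x) ∧ V.IsComplement' M ∧ ∃ k : ℕ, Nat.card V = q ^ k

/-- **Navarro's blockwise conjecture and perfect primitive permutation groups.** Let `p` be a prime and
let `q ≠ p` be `2` or a prime `≥ 7`. Navarro's equality holds for all finite groups `Γ`, all normal
subgroups `G` with `Γ/G` a `p`-group and all `Γ`-invariant blocks of `G` if and only if its two sides
are congruent modulo `p` for all blocks of `G = Γ = H`, `H` a finite perfect primitive permutation group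
of affine type whose degree is a power of `q`. -/
theorem result (p : ℕ) [Fact p.Prime] (F : Type) [Field F] [IsAlgClosed F] [CharP F p]
    (red : integralClosure ℤ ℂ →+* F) (q : ℕ) [Fact q.Prime] (hq : q = 2 ∨ 7 ≤ q) (hpq : q ≠ p) :
    Navarro p red (fun _ _ => True) (fun _ _ _ => True) (fun a b => a = b) ↔
      ∀ (H : Type) [Group H] [Finite H], PerfectPrimitive q H →
        ∀ B : ((⊤ : Subgroup H) → F) → F, IsBlock B → IsInvBlock ⊤ B →
          numIBr (⊤ : Subgroup H) B ≡ navarroSum p red (⊤ : Subgroup H) B [MOD p] := by
  have h1 : ¬ p ∣ q := fun h =>
    hpq ((Nat.prime_dvd_prime_iff_eq Fact.out Fact.out).mp h).symm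
  have key : (∀ (G : Type) [Group G] [Finite G], BAWC p red G) ↔
      ∀ (H : Type) [Group H] [Finite H], PV.PP q H → LWmod p red H := by
    rcases hq with rfl | hq
    · exact PV.bawc_prim PV.seed2 PV.card_W4 red h1
    · have : NeZero q := ⟨by omega⟩
      have : Finite (Multiplicative (ZMod q)) := inferInstanceAs (Finite (ZMod q))
      refine PV.bawc_prim (PV.seedQ q hq) (d := 1) ?_ red h1
      change Nat.card (ZMod q) = q ^ 1
      simp
  constructor
  · intro h H _ _ _ B hB hI
    rw [h H ⊤ trivial (pgroup_top p _) trivial B hB hI]
  · intro h
    rw [Run7.h45.nav_iff_bawc, key]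
    intro H _ _ hH B hB
    have h3 := h H hH (up B) (up_block hB) (up_inv B)
    rw [CommutatorCongruence.sum_up p red hB, numIBr_eq] at h3
    exact h3

end Pool.Agent.Results.MP_0c8ca5_al.PrimitiveGroups
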