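import Pool.Agent.Run7.h45.Den7

/-!
# Navarro's blockwise conjecture: rare exceptions do not exist

Let `q ≥ 2` be an integer not divisible by `p` and `M_n(ℤ/q) ⋊ S_n` the semidirect product of the
additive group of the `n × n` matrices over `ℤ/q` with `S_n`, which permutes the rows and the columns
simultaneously. `IsBlock`, `IsInvBlock`, `numIBr` are the definitions of `Pool/Agent/Y63/NV`, and
`navarroSum`, `Navarro` those of `CommutatorCongruence.lean`: the two sides of Navarro's equality are
`numIBr G B` and `navarroSum p red G B`. `BlocksWith G P` is the set of the blocks of `G` (algebra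
homomorphisms from the centre of `F[G]` to `F`) with the property `P`.

Outline. If the equality fails for some pair, then it fails for some pair `(G, G)`, by the starting
results. Every finite group `G` embeds in `S_n`, `n` large, as the stabilizer of at least
`q ^ (n² - c n log₂ n)` matrices in `M_n(ℤ/q)` in different orbits (`Run7.h45.many`), and Clifford theory
gives for each of them a block of `M_n(ℤ/q) ⋊ S_n` with the same numbers. Different orbits give
different blocks.
-/

set_option autoImplicit false

open scoped Classical

namespace Pool.Agent.Results.MP_0c8ca5_al.RareExceptions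

open Pool.Agent.Y63.NV Filter
open Pool.Agent.Results.MP_0c8ca5_al.CommutatorCongruence (navarroSum Navarro)
open Run7.h45 (MatGrp BlocksWith)

/-- **Rare exceptions do not exist.** Let `p` be a prime and `q ≥ 2` an integer not divisible by `p`.
Navarro's equality holds for all finite groups `Γ`, all normal subgroups `G` with `Γ/G` a `p`-group and
all `Γ`-invariant blocks of `G` if and only if for every `c` there are infinitely many `n` such that the
proportion of the blocks of `G = Γ = M_n(ℤ/q) ⋊ S_n` for which it fails is less than `n ^ (-c n)`. -/
theorem result (p : ℕ) [Fact p.Prime] (F : Type) [Field F] [IsAlgClosed F] [CharP F p]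
    (red : integralClosure ℤ ℂ →+* F) (q : ℕ) (hq : 2 ≤ q) (hpq : ¬ p ∣ q) :
    Navarro p red (fun _ _ => True) (fun _ _ _ => True) (fun a b => a = b) ↔
      ∀ c : ℕ, ∃ᶠ n : ℕ in atTop,
        (BlocksWith (F := F) (⊤ : Subgroup (MatGrp q n)) fun B => IsInvBlock ⊤ B ∧
          numIBr ⊤ B ≠ navarroSum p red ⊤ B).ncard * n ^ (c * n) <
          (BlocksWith (F := F) (⊤ : Subgroup (MatGrp q n)) fun _ => True).ncard :=
  Run7.h45.nav_iff_dens red hq hpq

end Pool.Agent.Results.MP_0c8ca5_al.RareExceptions
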