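import Pool.Agent.Run7.h45.Nav

/-!
# Navarro's blockwise conjecture in one sequence of groups

Let `q ≥ 2` be an integer not divisible by `p` and `M_n(ℤ/q) ⋊ S_n` the semidirect product of the
additive group of the `n × n` matrices over `ℤ/q` with `S_n`, which permutes the rows and the columns
simultaneously. `IsBlock`, `IsInvBlock`, `numIBr` are the definitions of `Pool/Agent/Y63/NV`, and
`navarroSum`, `Navarro` those of `CommutatorCongruence.lean`: the two sides of Navarro's equality are
`numIBr G B` and `navarroSum p red G B`.

Proof. Every finite group `G` is the stabiliser in `S_n` of a linear character of `M_n(ℤ/q)`, for all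
large `n`. Clifford theory for this character maps the blocks of `G` to blocks of `M_n(ℤ/q) ⋊ S_n` with
the same numbers of irreducible Brauer characters and of weights. So if the two sides for
`G = Γ = M_n(ℤ/q) ⋊ S_n` are congruent modulo `p`, then `l(B) ≡ w(B)` modulo `p` for all blocks of all
finite groups; by `CommutatorCongruence` this gives Alperin's weight conjecture for all finite groups
and Navarro's equality for all pairs.
-/

set_option autoImplicit false

open scoped Classical

namespace Pool.Agent.Results.MP_0c8ca5_al.UniversalFamily

open Pool.Agent.Y63.NV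
open Pool.Agent.Results.MP_0c8ca5_al.CommutatorCongruence (navarroSum Navarro)
open Run7.h45 (MatGrp)

/-- **Navarro's blockwise conjecture in one sequence of groups.** Let `p` be a prime, `q ≥ 2` an integer
not divisible by `p` and `N` an infinite set of natural numbers. Navarro's equality holds for all finite
groups `Γ`, all normal subgroups `G` with `Γ/G` a `p`-group and all `Γ`-invariant blocks of `G` if and
only if its two sides are congruent modulo `p` for the blocks of `G = Γ = M_n(ℤ/q) ⋊ S_n`, `n ∈ N`. -/
theorem result (p : ℕ) [Fact p.Prime] (F : Type) [Field F] [IsAlgClosed F] [CharP F p]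
    (red : integralClosure ℤ ℂ →+* F) (q : ℕ) (hq : 2 ≤ q) (hpq : ¬ p ∣ q) (N : Set ℕ)
    (hN : N.Infinite) :
    Navarro p red (fun _ _ => True) (fun _ _ _ => True) (fun a b => a = b) ↔
      ∀ n ∈ N, ∀ B : ((⊤ : Subgroup (MatGrp q n)) → F) → F, IsBlock B → IsInvBlock ⊤ B →
        numIBr (⊤ : Subgroup (MatGrp q n)) B ≡ navarroSum p red (⊤ : Subgroup (MatGrp q n)) B
          [MOD p] := by
  have : NeZero q := ⟨by omega⟩
  constructor
  · intro h n _ B hB hI
    rw [h (MatGrp q n) ⊤ trivial (pgroup_top p _) trivial B hB hI]
  · intro h
    rw [Run7.h45.nav_iff_bawc, Run7.h45.bawc_iff_mat red hq hpq N hN]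
    intro n hn B hB
    have h3 := h n hn (up B) (up_block hB) (up_inv B)
    rw [CommutatorCongruence.sum_up p red hB, numIBr_eq] at h3
    exact h3

end Pool.Agent.Results.MP_0c8ca5_al.UniversalFamily
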